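import Pool.Agent.MP_5beb1e_gt.Clopen

/-! Cosmic open quotients for spaces with infinitely many clopen subsets. -/

open Set Topology

namespace Pool.Agent.Results.MP_5beb1e_gt.InfinitelyManyClopens

open Pool.Agent.MP_5beb1e_gt

universe u

/-- If the space `X` has infinitely many clopen subsets then there are an infinite Tychonoff
space `Y` with a countable network and an open continuous homomorphism of the free abelian
topological group on `X` onto the one on `Y`. -/
theorem result {X : Type u} [TopologicalSpace X] (hinf : {D : Set X | IsClopen D}.Infinite) :
    HasCosmicOpenQuotient X := by
  obtain ⟨g, h1, h2, h3⟩ := exists_countable_range hinf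
  exact hasCosmicOpenQuotient_of_countable_range g h1 h2 h3

end Pool.Agent.Results.MP_5beb1e_gt.InfinitelyManyClopens
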