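import Pool.Agent.MP_5beb1e_gt.Clopen

/-! Cosmic open quotients for spaces which are locally connected off a Lindelof Sigma subspace,
relative to a real function. -/

open Set Topology

namespace Pool.Agent.Results.MP_5beb1e_gt.LocallyConnectedOffSigma

open Pool.Agent.MP_5beb1e_gt

universe u

/-- Let `g` be a continuous real function on `X` with infinite range and let `C` be a Lindelof
Sigma subspace of `X` (possibly empty) such that `X` is connected im kleinen at every point `x`
with `g x` outside `g '' C`.  Then there are an infinite Tychonoff space `Y` with a countable
network and an open continuous homomorphism of the free abelian topological group on `X` onto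
the one on `Y`. -/
theorem result {X : Type u} [TopologicalSpace X] (g : X → ℝ) (hg : Continuous g)
    (hinf : (range g).Infinite) (C : Set X) (hC : IsLindelofSigma C)
    (hloc : ∀ x, g x ∉ g '' C → ∀ U ∈ 𝓝 x, ∃ V ∈ 𝓝 x, V ⊆ U ∧ IsPreconnected V) :
    HasCosmicOpenQuotient X :=
  hasCosmicOpenQuotient_of_locally_connected g hg hinf C hC hloc

end Pool.Agent.Results.MP_5beb1e_gt.LocallyConnectedOffSigma
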