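import Pool.Agent.MP_5beb1e_gt.Menger

/-! Cosmic open quotients for Menger spaces, and for Lindelof spaces in which every closed
subspace has a closed set of countable character that is a countable union of Menger and
Lindelof Sigma subspaces. -/

open Set Topology

namespace Pool.Agent.Results.MP_5beb1e_gt.MengerOrSigmaPieces

open Pool.Agent.MP_5beb1e_gt

universe u

/-- Let `X` be an infinite Lindelof Tychonoff space such that each nonempty closed subset `F` of
`X` contains a nonempty closed set `K` which has a countable outer base in `F` and which is a
countable union of good subspaces (Lindelof Sigma spaces, Menger spaces, spaces without a closed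
subspace that maps onto the Baire space).  Then there are an infinite Tychonoff space `Y` with a
countable network and an open continuous homomorphism of the free abelian topological group on
`X` onto the one on `Y`. -/
theorem result (X : Type u) [TopologicalSpace X] [LindelofSpace X] [T35Space X] [Infinite X]
    (h : ∀ F : Set X, IsClosed F → F.Nonempty → ∃ K ⊆ F, K.Nonempty ∧ IsClosed K ∧
      HasCountableOuterBase F K ∧ ∃ C : ℕ → Set X, K = ⋃ n, C n ∧ ∀ n, IsGood (C n)) :
    HasCosmicOpenQuotient X :=
  hasCosmicOpenQuotient_of_good h

end Pool.Agent.Results.MP_5beb1e_gt.MengerOrSigmaPieces
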