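import Pool.Agent.MP_5beb1e_gt.Reduction

/-! Reduction of the question to connected Lindelof topologies on the unit interval that are
finer than the usual topology. -/

open Set Topology

namespace Pool.Agent.Results.MP_5beb1e_gt.ReductionToInterval

open Pool.Agent.MP_5beb1e_gt

universe u

/-- The question for all infinite Lindelof Tychonoff spaces is equivalent to the question for
the unit interval with connected Lindelof Tychonoff topologies finer than the usual one. -/
theorem result :
    (∀ (X : Type) [TopologicalSpace X] [LindelofSpace X] [T35Space X] [Infinite X],
      HasCosmicOpenQuotient X) ↔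
    ∀ τ : TopologicalSpace unitInterval,
      @Continuous unitInterval ℝ τ _ (fun t => (t : ℝ)) →
      @T35Space _ τ → @LindelofSpace _ τ → @ConnectedSpace _ τ →
      @HasCosmicOpenQuotient _ τ := by
  constructor
  · intro h τ _ h2 h3 _
    exact @h unitInterval τ h3 h2 (Set.Icc_infinite (zero_lt_one (α := ℝ))).to_subtype
  · intro h X _ _ _ _
    exact reduction h X

end Pool.Agent.Results.MP_5beb1e_gt.ReductionToInterval
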